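import Pool.Agent.LeoD.AlgStmts
import Pool.Agent.Helper75_LeoK.Leor

/-!
# Module LRA of squad LEOD: a failure of Leopoldt's conjecture gives a relation between units of
norm 1

Variant of `Helper28_LeoG/Lrg` (contrapositive, without the hypothesis `WMinus`).
-/

set_option autoImplicit false

open NumberField IsDedekindDomain WithZero Module Filter Topology
open Pool.Agent.Helper85_Leo Pool.Agent.Leo3 Pool.Agent.Leo3.H93 Pool.Agent.LeoK
open Pool.Agent.LeoK.H59 Pool.Agent.LeoK.H75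

namespace Pool.Agent.LeoD.H28

/-- LRA. -/
theorem lra : LraStmt := by
  intro k K _ _ _ _ _ τ hK hτ hLk hnot
  by_contra hcon
  push Not at hcon
  apply hnot
  intro n ε _ hind a m hm hdiv
  have : FiniteDimensional k K := Module.finite_of_finrank_pos (by omega)
  have : Algebra.IsQuadraticExtension k K := ⟨hK⟩
  have hττ : ∀ u : (𝓞 K)ˣ, cj τ (cj τ u) = u := by
    intro u
    have h1 := inc_nrm (k := k) hK τ hτ u
    have h2 : cj τ (inc (K := K) (nrm (k := k) u)) = inc (K := K) (nrm (k := k) u) := by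
      apply unit_ext
      rw [cj_coe, inc_coe, τ.commutes]
    rw [h1, map_mul] at h2
    have h3 : cj τ u * cj τ (cj τ u) = cj τ u * u := by rw [h2, mul_comm]
    exact mul_left_cancel h3
  -- the units of norm 1
  have hminus : ∀ i : Fin (Units.rank K),
      ∑ j, ((crd (ε j * (cj τ (ε j))⁻¹) i : ℤ) : PadicInt 3) * a j = 0 := by
    intro i
    refine hcon n (fun j => ε j * (cj τ (ε j))⁻¹) a m (crdHom i) ?_ hm ?_
    · intro j
      have h0 : (ε j * (cj τ (ε j))⁻¹) * cj τ (ε j * (cj τ (ε j))⁻¹) = 1 := by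
        rw [map_mul, map_inv, hττ]
        group
      show (((ε j * (cj τ (ε j))⁻¹ : (𝓞 K)ˣ) : 𝓞 K) : K) *
        τ (((ε j * (cj τ (ε j))⁻¹ : (𝓞 K)ˣ) : 𝓞 K) : K) = 1
      rw [← cj_coe]
      have h1 := congrArg (fun x : (𝓞 K)ˣ => ((x : 𝓞 K) : K)) h0
      simp only [Units.val_mul, Units.val_one, map_mul, map_one] at h1 ⊢
      exact h1
    · intro N
      refine (hdiv N).mono fun l hl => ?_
      have h1 : ∏ j, (ε j * (cj τ (ε j))⁻¹) ^ m l j =
          (∏ j, ε j ^ m l j) * (cj τ (∏ j, ε j ^ m l j))⁻¹ := by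
        rw [map_prod, ← Finset.prod_inv_distrib, ← Finset.prod_mul_distrib]
        refine Finset.prod_congr rfl fun j _ => ?_
        rw [mul_zpow, inv_zpow, map_zpow]
      rw [h1]
      generalize (∏ j, ε j ^ m l j) = u at hl
      have h2 := dvd_conj τ N u hl
      have h3 : ((u * (cj τ u)⁻¹ : (𝓞 K)ˣ) : 𝓞 K) - 1 =
          (((u : 𝓞 K) - 1) - ((cj τ u : 𝓞 K) - 1)) * (((cj τ u)⁻¹ : (𝓞 K)ˣ) : 𝓞 K) := by
        have h4 : (cj τ u : 𝓞 K) * (((cj τ u)⁻¹ : (𝓞 K)ˣ) : 𝓞 K) = 1 := Units.mul_inv _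
        rw [Units.val_mul]
        linear_combination h4
      rw [h3]
      exact Dvd.dvd.mul_right (dvd_sub hl h2) _
  -- the norms
  have hbase : ∀ i : Fin (Units.rank k),
      ∑ j, ((crd (nrm (k := k) (ε j)) i : ℤ) : PadicInt 3) * a j = 0 := by
    intro i
    refine rel_base hLk (fun j => nrm (k := k) (ε j)) a m hm ?_ i
    intro N
    refine (hdiv N).mono fun l hl => ?_
    have h1 : ∏ j, nrm (k := k) (ε j) ^ m l j = nrm (k := k) (∏ j, ε j ^ m l j) := by
      rw [map_prod]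
      refine Finset.prod_congr rfl fun j _ => ?_
      rw [map_zpow]
    rw [h1]
    generalize (∏ j, ε j ^ m l j) = u at hl
    have h2 := dvd_conj τ N u hl
    apply dvd_down (K := K)
    have h3 := congrArg Units.val (inc_nrm (k := k) hK τ hτ u)
    have h4 : algebraMap (𝓞 k) (𝓞 K) ((nrm (k := k) u : 𝓞 k) - 1) =
        ((u : 𝓞 K) - 1) * (cj τ u : 𝓞 K) + ((cj τ u : 𝓞 K) - 1) := by
      rw [map_sub, map_one]
      have h5 : algebraMap (𝓞 k) (𝓞 K) (nrm (k := k) u : 𝓞 k) = (u : 𝓞 K) * (cj τ u : 𝓞 K) := h3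
      rw [h5]
      ring
    rw [h4]
    exact dvd_add (Dvd.dvd.mul_right hl _) h2
  have hplus : ∀ l : Fin (Units.rank K),
      ∑ j, ((crd (ε j * cj τ (ε j)) l : ℤ) : PadicInt 3) * a j = 0 := by
    intro l
    have h1 : ∀ j, ((crd (ε j * cj τ (ε j)) l : ℤ) : PadicInt 3) * a j =
        ∑ i, ((crd (inc (K := K) (Units.fundSystem k i)) l : ℤ) : PadicInt 3) *
          (((crd (nrm (k := k) (ε j)) i : ℤ) : PadicInt 3) * a j) := by
      intro j
      rw [← inc_nrm (k := k) hK τ hτ (ε j), crd_inc, Int.cast_sum, Finset.sum_mul]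
      refine Finset.sum_congr rfl fun i _ => ?_
      push_cast
      ring
    rw [Finset.sum_congr rfl fun j _ => h1 j, Finset.sum_comm]
    refine Finset.sum_eq_zero fun i _ => ?_
    rw [← Finset.mul_sum, hbase i, mul_zero]
  have hrel : ∀ i : Fin (Units.rank K), ∑ j, ((crd (ε j) i : ℤ) : PadicInt 3) * a j = 0 := by
    intro i
    have h1 : ∀ j, 2 * (((crd (ε j) i : ℤ) : PadicInt 3) * a j) =
        ((crd (ε j * (cj τ (ε j))⁻¹) i : ℤ) : PadicInt 3) * a j +
        ((crd (ε j * cj τ (ε j)) i : ℤ) : PadicInt 3) * a j := by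
      intro j
      have h2 : 2 * crd (ε j) i = crd (ε j * (cj τ (ε j))⁻¹) i + crd (ε j * cj τ (ε j)) i := by
        rw [← crd_mul]
        have h3 : ε j * (cj τ (ε j))⁻¹ * (ε j * cj τ (ε j)) = ε j * ε j := by
          rw [mul_comm (ε j) (cj τ (ε j)), ← mul_assoc, inv_mul_cancel_right]
        rw [h3, crd_mul]
        ring
      have h4 : (2 : PadicInt 3) * ((crd (ε j) i : ℤ) : PadicInt 3) =
          ((crd (ε j * (cj τ (ε j))⁻¹) i : ℤ) : PadicInt 3) +
          ((crd (ε j * cj τ (ε j)) i : ℤ) : PadicInt 3) := by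
        have := congrArg (Int.cast : ℤ → PadicInt 3) h2
        push_cast at this
        exact this
      rw [← mul_assoc, h4, add_mul]
    have h5 : (2 : PadicInt 3) * ∑ j, ((crd (ε j) i : ℤ) : PadicInt 3) * a j = 0 := by
      rw [Finset.mul_sum, Finset.sum_congr rfl fun j _ => h1 j, Finset.sum_add_distrib,
        hminus i, hplus i, add_zero]
    exact (mul_eq_zero.1 h5).resolve_left two_ne_zero
  -- conclusion
  by_contra hne
  obtain ⟨j₀, hj₀⟩ := Function.ne_iff.1 hne
  obtain ⟨z, hz0, hz⟩ := exists_int_solution (V := ℚ_[3]) (fun j => ((a j : PadicInt 3) : ℚ_[3]))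
    (fun j i => crd (ε j) i) (by
      intro i
      have h1 := congrArg (fun x : PadicInt 3 => (x : ℚ_[3])) (hrel i)
      simp only [PadicInt.coe_zero] at h1
      rw [← h1, PadicInt.coe_sum]
      refine Finset.sum_congr rfl fun j _ => ?_
      rw [PadicInt.coe_mul, PadicInt.coe_intCast, Rat.smul_def, Rat.cast_intCast]
      ) j₀ (by
      intro h0
      apply hj₀
      exact Subtype.ext h0)
  obtain ⟨l, hl, hl1⟩ := crd_torsion (∏ j, ε j ^ z j) (by
    intro i
    rw [crd_prod, ← hz i]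
    refine Finset.sum_congr rfl fun j _ => ?_
    ring)
  have h2 := hind (fun j => z j * l) (by
    rw [← hl1, ← Finset.prod_pow]
    refine Finset.prod_congr rfl fun j _ => ?_
    rw [zpow_mul, zpow_natCast])
  have h3 := congrFun h2 j₀
  simp only [Pi.zero_apply, mul_eq_zero] at h3
  rcases h3 with h3 | h3
  · exact hz0 h3
  · omega

end Pool.Agent.LeoD.H28
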